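import Mathlib
import Pool.Agent.H.MP_23b914_co.A

set_option autoImplicit false

namespace Pool.Agent.H.MP_c4e285_co

open Finset Function

noncomputable def nu (n V : ℕ) : ℕ := (MP_23b914_co.cb2 ((2 * n + 1) * V * 2 ^ (n + 3) + n + 1)).choose

theorem nu_spec (n V : ℕ) : n < nu n V ∧
    (2 * n + 1) * V * 2 ^ (n + 3) * (nu n V).centralBinom ≤ 4 ^ nu n V := by
  obtain ⟨a, b⟩ := (MP_23b914_co.cb2 ((2 * n + 1) * V * 2 ^ (n + 3) + n + 1)).choose_spec
  exact ⟨lt_of_lt_of_le (by omega) a, le_trans (Nat.mul_le_mul_right _ (by omega)) b⟩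

noncomputable def V : ℕ → ℕ
  | 0 => 1
  | n + 1 => V n * (2 * nu n (V n) - 1)

noncomputable def M (n : ℕ) : ℕ := 2 * nu n (V n) - 1

theorem M_spec (n : ℕ) : M n + 1 = 2 * nu n (V n) ∧ 2 * n < M n := by
  have := (nu_spec n (V n)).1
  unfold M; omega

theorem V_pos : ∀ n, 0 < V n
  | 0 => one_pos
  | n + 1 => mul_pos (V_pos n) (Nat.zero_lt_of_lt (M_spec n).2)

abbrev X := ℕ → ZMod 2

def Per (n : ℕ) (x : X) : Prop := Periodic x (V n)

theorem Per.mono {n m : ℕ} {x : X} (h : Per n x) (l : n ≤ m) : Per m x := by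
  induction l with
  | refl => exact h
  | step _ ih => exact fun p => by rw [V, mul_comm]; exact Periodic.nat_mul ih _ p

noncomputable def c (n : ℕ) (x : X) (p : ℕ) : ℕ := ∑ t ∈ range (M n), (x (p + t * V n)).val

noncomputable def T (n : ℕ) (x : X) : X := fun p => if M n < 2 * c n x p then 1 else 0

theorem T_per {n : ℕ} {x : X} (h : Per (n + 1) x) : Per n (T n x) := fun p => by
  have a := sum_range_succ (fun t => (x (p + t * V n)).val) (M n)
  rw [sum_range_succ', mul_comm (M n), show x (p + V n * M n) = x p from h p] at a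
  have : c n x (p + V n) = c n x p := by
    simp only [zero_mul, add_zero, add_left_inj] at a
    exact (sum_congr rfl fun t _ => by rw [add_mul, one_mul, add_assoc, add_comm (V n)]).trans a
  simp only [T, this]

theorem z2 (a : ZMod 2) : a = 0 ∨ a = 1 := by revert a; decide

theorem T_add {n : ℕ} (x : X) {y : X} (h : Per n y) : T n (x + y) = T n x + y := funext fun p => by
  have e : ∀ t, y (p + t * V n) = y p := fun t => by simpa using Periodic.nat_mul h t p
  simp only [T, c, Pi.add_apply, e]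
  rcases z2 (y p) with z | z <;> rw [z]
  · simp
  have : ∑ t ∈ range (M n), (x (p + t * V n) + 1).val + ∑ t ∈ range (M n), (x (p + t * V n)).val =
      M n := by
    rw [← sum_add_distrib, sum_congr rfl (g := fun _ => 1) fun t _ => by
      rcases z2 (x (p + t * V n)) with z | z <;> rw [z] <;> rfl]
    simp
  have := (M_spec n).1
  split_ifs <;> first | rfl | omega

theorem T_id {n : ℕ} {y : X} (h : Per n y) : T n y = y := by
  have : T n 0 = 0 := funext fun p => by simp [T, c]
  simpa [this] using T_add 0 h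

noncomputable def U (n : ℕ) : ℕ → X → X
  | 0, x => x
  | d + 1, x => U n d (T (n + d) x)

theorem U_add {n : ℕ} {y : X} (h : Per n y) : ∀ d x, U n d (x + y) = U n d x + y
  | 0, _ => rfl
  | d + 1, x => by rw [U, U, T_add _ (h.mono le_self_add), U_add h d]

theorem U_per {n : ℕ} : ∀ d x, Per (n + d) x → Per n (U n d x)
  | 0, _, h => h
  | d + 1, _, h => U_per d _ (T_per h)

theorem U_comp (n : ℕ) : ∀ d x, U 0 (n + 1 + d) x = U 0 n (T n (U (n + 1) d x))
  | 0, x => by rw [add_zero, U, U, zero_add]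
  | d + 1, x => by rw [← add_assoc, U, zero_add, U_comp n d, U]

theorem U_stab {n m : ℕ} {x : X} (h : Per n x) (l : n ≤ m) : U 0 m x = U 0 n x := by
  induction l with
  | refl => rfl
  | step l ih => rw [U, zero_add, T_id (h.mono l), ih]

def G : AddSubgroup X where
  carrier := {x | ∃ n, Per n x}
  add_mem' := fun ⟨n, a⟩ ⟨m, b⟩ => ⟨n + m, (a.mono le_self_add).add (b.mono le_add_self)⟩
  zero_mem' := ⟨0, fun _ => rfl⟩
  neg_mem' := fun ⟨n, a⟩ => ⟨n, fun p => congrArg Neg.neg (a p)⟩

def S (n : ℕ) : AddSubgroup G where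
  carrier := {x | Per n x.1}
  add_mem' := fun a b => Periodic.add a b
  zero_mem' := fun _ => rfl
  neg_mem' := fun a p => congrArg Neg.neg (a p)

instance (n : ℕ) : Finite (S n) :=
  Finite.of_injective (fun (x : S n) (i : Fin (V n)) => x.1.1 i) fun x y e =>
    Subtype.ext (Subtype.ext (funext fun p => by
      rw [← Periodic.map_mod_nat x.2 p, ← Periodic.map_mod_nat y.2 p]
      exact congrFun e ⟨_, Nat.mod_lt _ (V_pos n)⟩))

instance : Countable G := by
  have : (Set.univ : Set G) = ⋃ n, (S n : Set G) :=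
    Set.ext fun x => ⟨fun _ => Set.mem_iUnion.2 x.2, fun _ => trivial⟩
  exact Set.countable_univ_iff.1 (this ▸ Set.countable_iUnion fun n =>
    Set.Finite.countable (inferInstance : Finite (S n)))

noncomputable def f (x : G) : ZMod 2 := U 0 x.2.choose x.1 0

theorem f_eq {x : G} {n : ℕ} (h : Per n x.1) : f x = U 0 n x.1 0 := by
  rw [f, ← U_stab x.2.choose_spec (le_max_left _ n), U_stab h (le_max_right _ _)]

def Rob (n : ℕ) (x : X) : Prop :=
  ∀ p < V n, 2 * (c n x p + n) < M n ∨ M n + 2 * n < 2 * c n x p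

theorem Rob_per {n : ℕ} {y : X} (h : Per n y) : Rob n y := fun p _ => by
  have e : ∀ t, y (p + t * V n) = y p := fun t => by simpa using Periodic.nat_mul h t p
  have := (M_spec n).2
  simp only [c, e, sum_const, card_range, smul_eq_mul]
  rcases z2 (y p) with z | z <;> rw [z]
  · left; simpa
  · right; rw [ZMod.val_one]; omega

noncomputable def dl (n q : ℕ) : G := ⟨fun p => if p % V n = q then 1 else 0, n, fun p => by simp⟩

theorem dl_sum (n : ℕ) (Q : Finset ℕ) (p : ℕ) :
    (∑ q ∈ Q, dl n q).1 p = if p % V n ∈ Q then 1 else 0 := by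
  simp [dl, Finset.sum_apply]

theorem T_rob {n : ℕ} {x : X} (hx : Per (n + 1) x) (h : Rob n x) (Q : Finset ℕ) (hQ : Q.card ≤ n) :
    T n (x + (∑ q ∈ Q, dl (n + 1) q).1) = T n x := funext fun p => by
  have hs : Per (n + 1) (∑ q ∈ Q, dl (n + 1) q).1 := fun p => by rw [dl_sum, dl_sum, Nat.add_mod_right]
  rw [← Periodic.map_mod_nat (T_per hx) p, ← Periodic.map_mod_nat (T_per (hx.add hs)) p]
  have l := Nat.mod_lt p (V_pos n)
  generalize p % V n = p at l
  have a : ∑ t ∈ range (M n), (if p + t * V n ∈ Q then 1 else 0) ≤ n := by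
    rw [← card_filter]
    refine (card_le_card_of_injOn (fun t => p + t * V n) (fun t ht => (mem_filter.1 ht).2)
      fun t _ u _ e => ?_).trans hQ
    exact Nat.eq_of_mul_eq_mul_right (V_pos n) (add_left_cancel e)
  have b : c n (x + (∑ q ∈ Q, dl (n + 1) q).1) p ≤ c n x p + n ∧
      c n x p ≤ c n (x + (∑ q ∈ Q, dl (n + 1) q).1) p + n := by
    refine ⟨le_trans ?_ (Nat.add_le_add_left a _), le_trans ?_ (Nat.add_le_add_left a _)⟩ <;>
    · rw [c, c, ← sum_add_distrib]
      refine sum_le_sum fun t ht => ?_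
      have : p + t * V n < V (n + 1) := by
        have := Nat.mul_le_mul_right (V n) (Nat.succ_le_of_lt (mem_range.1 ht))
        change _ < V n * M n
        rw [Nat.succ_mul] at this
        linarith
      rw [Pi.add_apply, dl_sum, Nat.mod_eq_of_lt this]
      split_ifs
      · rcases z2 (x (p + t * V n)) with z | z <;> rw [z] <;> decide
      · simp
  have := h p l
  simp only [T]
  split_ifs <;> first | rfl | omega

theorem few {k : ℕ} (χ : Fin k → AddChar G Circle) (n m : ℕ) : ∀ Q : Finset ℕ, Q.card = m →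
    ∃ R : Finset ℕ, R.card ≤ 2 ^ k ∧ ∀ j, χ j (∑ q ∈ R, dl n q) = χ j (∑ q ∈ Q, dl n q) := by
  induction m using Nat.strong_induction_on with
  | _ m ih =>
  intro Q hQ
  by_cases h : Q.card ≤ 2 ^ k
  · exact ⟨Q, h, fun _ => rfl⟩
  obtain ⟨a, ha, b, hb, ab, e⟩ := exists_ne_map_eq_of_card_lt_of_maps_to
    (t := (univ : Finset (Fin k → Prop))) (s := Q) (by simpa using h)
    (f := fun q j => χ j (dl n q) = 1) fun _ _ => mem_univ _
  have b' : b ∈ Q.erase a := mem_erase.2 ⟨ab.symm, hb⟩
  obtain ⟨R, h1, h2⟩ := ih _ (((card_erase_lt_of_mem b').trans (card_erase_lt_of_mem ha)).trans_eq hQ)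
    _ rfl
  refine ⟨R, h1, fun j => ?_⟩
  have s : ∀ q, (χ j (dl n q) : ℂ) = 1 ∨ (χ j (dl n q) : ℂ) = -1 := fun q => by
    rw [← mul_self_eq_one_iff, ← Circle.coe_mul, ← AddChar.map_add_eq_mul,
      show dl n q + dl n q = 0 from Subtype.ext (funext fun p => CharTwo.add_self_eq_zero _)]
    simp
  have e := eq_iff_iff.1 (congrFun e j)
  rw [h2, ← add_sum_erase _ _ ha, ← add_sum_erase _ _ b', AddChar.map_add_eq_mul,
    AddChar.map_add_eq_mul, ← mul_assoc, eq_comm, mul_eq_right]
  simp only [Circle.ext_iff, Circle.coe_one, Circle.coe_mul] at e ⊢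
  rcases s a with x | x <;> rcases s b with y | y <;> rw [x, y] at e ⊢ <;> revert e <;> norm_num

theorem unif {A K : Type} [AddCommGroup A] [Fintype A] [AddCommGroup K] [Fintype K] [DecidableEq K]
    (φ : A → K) (h : ∀ k, ∃ g, ∀ x, φ (x + g) = φ x + k) (S : Finset K) :
    (univ.filter fun x => φ x ∈ S).card * Fintype.card K = S.card * Fintype.card A := by
  have e : ∀ k, (univ.filter fun x => φ x = k).card = (univ.filter fun x => φ x = 0).card := by
    intro k
    obtain ⟨g, hg⟩ := h k
    exact (card_bijective (· + g) (Equiv.addRight g).bijective fun x => by simp [hg]).symm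
  have a : ∀ S : Finset K, (univ.filter fun x => φ x ∈ S).card =
      S.card * (univ.filter fun x => φ x = 0).card := fun S => by
    rw [card_eq_sum_card_fiberwise (f := φ) (t := S) (s := univ.filter fun x => φ x ∈ S)
      fun x hx => (mem_filter.1 hx).2,
      ← smul_eq_mul, ← sum_const]
    refine sum_congr rfl fun k hk => (congrArg _ ?_).trans (e k)
    ext x
    simp only [mem_filter, mem_univ, true_and, and_iff_right_iff_imp]
    exact fun z => z ▸ hk
  have := a univ
  simp only [mem_univ, filter_true, card_univ] at this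
  rw [a, this]; ring

open Classical in
theorem bad [∀ n, Fintype (S n)] (n d : ℕ) :
    ((univ.filter fun x : S (n + 1 + d) => ¬Rob n (U (n + 1) d x.1.1)).card : ℝ) ≤
      Fintype.card (S (n + 1 + d)) / 4 * (1 / 2) ^ n := by
  let B := univ.filter fun k : Fin (M n) → ZMod 2 => ∑ t, (k t).val ∈ Icc (nu n (V n) - n) (nu n (V n) + n)
  have b : B.card ≤ (2 * n + 1) * (nu n (V n)).centralBinom := by
    refine (card_le_card_of_injOn (fun k => univ.filter fun t => k t = 1) (t :=
      (Icc (nu n (V n) - n) (nu n (V n) + n)).biUnion fun i => univ.powersetCard i)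
      (fun k hk => ?_) fun k _ l _ e => funext fun t => ?_).trans ?_
    · refine mem_coe.2 (mem_biUnion.2 ⟨_, (mem_filter.1 hk).2, mem_powersetCard.2
        ⟨subset_univ _, ?_⟩⟩)
      rw [card_filter]
      exact sum_congr rfl fun t _ => by rcases z2 (k t) with z | z <;> rw [z] <;> rfl
    · have := Finset.ext_iff.1 e t
      simp only [mem_filter, mem_univ, true_and] at this
      revert this
      generalize k t = a
      generalize l t = b
      revert a b
      decide
    refine (card_biUnion_le_card_mul _ _ _ fun i _ => ?_).trans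
      (Nat.mul_le_mul_right _ (by rw [Nat.card_Icc]; omega))
    rw [card_powersetCard, card_univ, Fintype.card_fin]
    exact ((Nat.choose_le_succ _ _).trans_eq (congrArg (Nat.choose · i) (M_spec n).1)).trans
      (Nat.choose_le_centralBinom _ _)
  let φ : ℕ → S (n + 1 + d) → Fin (M n) → ZMod 2 := fun p x t => U (n + 1) d x.1.1 (p + t * V n)
  have u : ∀ p ∈ range (V n), (univ.filter fun x => φ p x ∈ B).card * 2 ^ M n =
      B.card * Fintype.card (S (n + 1 + d)) := fun p hp => by
    have m0 : 0 < M n := Nat.zero_lt_of_lt (M_spec n).2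
    have := unif (φ p) (fun k => ?_) B
    · simpa using this
    have h : Per (n + 1) fun q => k ⟨q / V n % M n, Nat.mod_lt _ m0⟩ := fun q => by
      have : (q + V (n + 1)) / V n % M n = q / V n % M n := by
        change (q + V n * M n) / _ % _ = _
        rw [Nat.add_mul_div_left _ _ (V_pos n), Nat.add_mod_right]
      simp only [this]
    refine ⟨⟨⟨_, _, h⟩, h.mono le_self_add⟩, fun x => funext fun t => ?_⟩
    simp only [φ, AddSubgroup.coe_add, U_add h, Pi.add_apply, Nat.add_mul_div_right _ _ (V_pos n),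
      Nat.div_eq_of_lt (mem_range.1 hp), zero_add, Nat.mod_eq_of_lt t.2]
  have s : (univ.filter fun x : S (n + 1 + d) => ¬Rob n (U (n + 1) d x.1.1)) ⊆
      (range (V n)).biUnion fun p => univ.filter fun x => φ p x ∈ B := fun x hx => by
    simp only [Rob, mem_filter, mem_univ, true_and, not_forall] at hx
    obtain ⟨p, hp, hx⟩ := hx
    refine mem_biUnion.2 ⟨p, mem_range.2 hp, ?_⟩
    have := (M_spec n).1
    simp only [B, φ, mem_filter, mem_univ, true_and, mem_Icc]
    rw [Fin.sum_univ_eq_sum_range fun t => (U (n + 1) d x.1.1 (p + t * V n)).val]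
    unfold c at hx
    omega
  have a := Nat.mul_le_mul_right (2 ^ M n) ((card_le_card s).trans card_biUnion_le)
  rw [sum_mul, sum_congr rfl u, sum_const, card_range, smul_eq_mul] at a
  have e := (nu_spec n (V n)).2
  rw [show 4 = 2 ^ 2 from rfl, ← pow_mul, ← (M_spec n).1, pow_succ 2 (M n), pow_add] at e
  rw [one_div, inv_pow, ← div_eq_mul_inv, div_div, le_div_iff₀ (by positivity)]
  norm_cast
  refine Nat.le_of_mul_le_mul_left (c := 2 ^ M n * 2) ?_ (by positivity)
  have := Nat.mul_le_mul_right (V n * 2 ^ n * 8 * Fintype.card (S (n + 1 + d))) b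
  have := Nat.mul_le_mul_right (Fintype.card (S (n + 1 + d))) e
  have := Nat.mul_le_mul_right (2 ^ n * 8) a
  nlinarith

def B (σ : ZMod 2) : Set G :=
  {x | (∀ n, ∃ d, Per (n + 1 + d) x.1 ∧ Rob n (U (n + 1) d x.1)) ∧ f x = σ}

open Classical in
theorem many [∀ n, Fintype (S n)] (N : ℕ) :
    (Fintype.card (S N) : ℝ) ≤ 2 * (univ.filter fun x : S N => x.1 ∈ B 0 ∪ B 1).card := by
  let Z := fun n => univ.filter fun x : S N => ¬∃ d, Per (n + 1 + d) x.1.1 ∧ Rob n (U (n + 1) d x.1.1)
  have a : univ ⊆ (univ.filter fun x : S N => x.1 ∈ B 0 ∪ B 1) ∪ (range N).biUnion Z := by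
    intro x _
    simp only [Z, mem_union, mem_filter, mem_biUnion, mem_univ, true_and, mem_range]
    refine or_iff_not_imp_right.2 fun h => ?_
    have : ∀ n, ∃ d, Per (n + 1 + d) x.1.1 ∧ Rob n (U (n + 1) d x.1.1) := fun n => by
      by_cases l : n < N
      · exact not_not.1 fun z => h ⟨n, l, z⟩
      · exact ⟨0, Per.mono x.2 (by omega), Rob_per (Per.mono x.2 (by omega))⟩
    exact (z2 (f x)).imp (fun z => ⟨this, z⟩) fun z => ⟨this, z⟩
  have b := (card_le_card a).trans ((card_union_le _ _).trans (Nat.add_le_add_left card_biUnion_le _))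
  have c := sum_le_sum (s := range N) (f := fun n => ((Z n).card : ℝ))
    (g := fun n => Fintype.card (S N) / 4 * (1 / 2) ^ n) fun n hn => by
      obtain ⟨d, rfl⟩ := Nat.exists_eq_add_of_le (Nat.succ_le_of_lt (mem_range.1 hn))
      refine le_trans (Nat.cast_le.2 (card_le_card fun x hx => ?_)) (bad n d)
      exact mem_filter.2 ⟨mem_univ _, fun z => (mem_filter.1 hx).2 ⟨d, x.2, z⟩⟩
  rw [← mul_sum] at c
  have d := mul_le_mul_of_nonneg_left (sum_geometric_two_le N)
    (by positivity : (0 : ℝ) ≤ Fintype.card (S N) / 4)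
  rw [card_univ] at b
  rify at b
  linarith

def K (κ : ZMod 2) : G := ⟨fun _ => κ, 0, fun _ => rfl⟩

theorem avoid {σ : ZMod 2} {b : G} (hb : b ∈ B σ) (n : ℕ) (Q : Finset ℕ) (hQ : Q.card ≤ n)
    (κ : ZMod 2) : f (b + ∑ q ∈ Q, dl (n + 1) q + K κ) = σ + κ := by
  obtain ⟨d, h1, h2⟩ := hb.1 n
  have hs : Per (n + 1) (∑ q ∈ Q, dl (n + 1) q).1 :=
    fun p => by rw [dl_sum, dl_sum, Nat.add_mod_right]
  have hk : Per 0 (K κ).1 := fun _ => rfl
  rw [← hb.2, f_eq h1, f_eq (x := b + _ + K κ) (n := n + 1 + d) ((h1.add (hs.mono le_self_add)).add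
    (hk.mono (Nat.zero_le _))), AddSubgroup.coe_add, U_add hk, AddSubgroup.coe_add, U_comp, U_comp,
    U_add hs, T_rob (U_per _ _ h1) h2 Q hQ]
  rfl

theorem dense {k : ℕ} (χ : Fin k → AddChar G Circle) (g : G) : ∃ (n : ℕ) (Q : Finset ℕ), Q.card ≤ n ∧
    ∀ j, χ j (∑ q ∈ Q, dl (n + 1) q) = χ j g := by
  obtain ⟨m, hm⟩ := g.2
  have h : Per (m + 2 ^ k + 1) g.1 := hm.mono (le_self_add.trans le_self_add)
  obtain ⟨R, h1, h2⟩ := few χ (m + 2 ^ k + 1) _ ((range (V (m + 2 ^ k + 1))).filter fun q => g.1 q = 1) rfl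
  refine ⟨_, R, h1.trans le_add_self, fun j => (h2 j).trans (congrArg _ (Subtype.ext (funext fun p => ?_)))⟩
  rw [dl_sum, ← Periodic.map_mod_nat h p]
  rcases z2 (g.1 (p % V (m + 2 ^ k + 1))) with z | z <;> simp [z, Nat.mod_lt _ (V_pos _)]

end Pool.Agent.H.MP_c4e285_co
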